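import Pool.Agent.MP_84d7a8_al.Mg.Main

namespace Pool.Agent.Results.MP_84d7a8_al.Exists

open Pool.Agent.MP_84d7a8_al

/-- There is a finitely generated group that embeds into the group of orientation-preserving `C^k`
diffeomorphisms of `[0,1]` and of the circle for every integer `k ≥ 1`, but into neither
`C^∞` group. -/
theorem result : ∃ (G : Type) (_ : Group G), Group.FG G ∧
    (∀ k : ℕ, 1 ≤ k → ∃ φ : G →* DiffInterval k, Function.Injective φ) ∧
    (¬ ∃ φ : G →* DiffInterval ⊤, Function.Injective φ) ∧
    (∀ k : ℕ, 1 ≤ k → ∃ φ : G →* DiffCircle k, Function.Injective φ) ∧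
    ¬ ∃ φ : G →* DiffCircle ⊤, Function.Injective φ :=
  main

end Pool.Agent.Results.MP_84d7a8_al.Exists
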